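import Pool.Agent.STG.RES
import Pool.Agent.STG.GRD

/-!
# One-pass streaming algorithms for maximum matching: the optimal ratio is `1 / 2`

The edges of a graph on `n` vertices are read once, in an order chosen by an adversary, by a
randomised algorithm with `O(n polylog n)` bits of memory, which has to output a matching with at
least `α ν(G)` edges, with probability at least `2 / 3`.  We show that the best possible constant
`α` is `1 / 2`: the greedy algorithm is optimal.  More precisely, for every `α > 1 / 2`, `δ > 0`,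
every constant `K` and every exponent `c`, and for all large `n`, each such algorithm with at most
`K n (log n) ^ c` bits has a success probability of at most `δ` on some stream, and the graph of
this stream is even bipartite.

The algorithms of the lower bound are as strong as possible: their steps may depend on `n` and on
the number of edges read so far, computation is free, and a randomised algorithm is an arbitrary
random choice of a deterministic one (so random bits are free as well).  The algorithm of the upper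
bound is deterministic and has at most `5 n log n` bits.
-/

namespace Pool.Agent.Results.MP_8d7caf_lc.GreedyOptimal

open Filter MeasureTheory

/-- A deterministic one-pass algorithm with `b` bits of memory for graphs with the vertex set
`{0, ..., n - 1}`.  The memory is an element of `Fin (2 ^ b)`.  `step t m e` is the memory after
reading the edge `e` if `m` was the memory before and `t` edges had been read before;
`out t m` is the set of edges which is produced at the end if `t` edges have been read and the
memory is `m`. -/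
structure Alg (n b : ℕ) where
  init : Fin (2 ^ b)
  step : ℕ → Fin (2 ^ b) → Sym2 (Fin n) → Fin (2 ^ b)
  out : ℕ → Fin (2 ^ b) → Finset (Sym2 (Fin n))

/-- The memory after reading the list of edges, starting with memory `m` at time `t`. -/
def Alg.run {n b : ℕ} (A : Alg n b) : ℕ → Fin (2 ^ b) → List (Sym2 (Fin n)) → Fin (2 ^ b)
  | _, m, [] => m
  | t, m, e :: l => A.run (t + 1) (A.step t m e) l

/-- The set of edges which the algorithm outputs after reading the whole stream `σ` once. -/
def Alg.output {n b : ℕ} (A : Alg n b) (σ : List (Sym2 (Fin n))) : Finset (Sym2 (Fin n)) :=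
  A.out σ.length (A.run 0 A.init σ)

/-- An edge stream of a simple graph: a list of pairwise different edges without loops. -/
def IsStream {n : ℕ} (σ : List (Sym2 (Fin n))) : Prop := σ.Nodup ∧ ∀ e ∈ σ, ¬ e.IsDiag

/-- The graph of the stream is bipartite. -/
def IsBip {n : ℕ} (σ : List (Sym2 (Fin n))) : Prop :=
  ∃ side : Fin n → Bool, ∀ v w, s(v, w) ∈ σ → side v ≠ side w

/-- A matching: two edges of `M` with a common vertex are equal. -/
def IsMatch {n : ℕ} (M : Finset (Sym2 (Fin n))) : Prop :=
  ∀ e ∈ M, ∀ f ∈ M, ∀ v, v ∈ e → v ∈ f → e = f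

/-- The maximum size of a matching of the graph whose edges are the elements of the stream. -/
noncomputable def nu {n : ℕ} (σ : List (Sym2 (Fin n))) : ℕ :=
  sSup {k | ∃ M : Finset (Sym2 (Fin n)), (∀ e ∈ M, e ∈ σ) ∧ IsMatch M ∧ M.card = k}

/-- The algorithm succeeds on `σ`: its output consists of edges of the stream, is a matching, and
has at least `α ν` edges. -/
def Success {n b : ℕ} (α : ℝ) (A : Alg n b) (σ : List (Sym2 (Fin n))) : Prop :=
  (∀ e ∈ A.output σ, e ∈ σ) ∧ IsMatch (A.output σ) ∧ α * (nu σ : ℝ) ≤ ((A.output σ).card : ℝ)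

/-- The same algorithm in the format of the helper files. -/
def Alg.toS {n b : ℕ} (A : Alg n b) : SMG.SAlg (Fin n) b := ⟨A.init, A.step, A.out⟩

theorem run_toS {n b : ℕ} (A : Alg n b) (l : List (Sym2 (Fin n))) :
    ∀ (t : ℕ) (m : Fin (2 ^ b)), A.toS.runFrom t m l = A.run t m l := by
  induction l with
  | nil => intro t m; rfl
  | cons e l ih => intro t m; exact ih (t + 1) (A.step t m e)

theorem output_toS {n b : ℕ} (A : Alg n b) (σ : List (Sym2 (Fin n))) :
    A.toS.output σ = A.output σ := by
  unfold SMG.SAlg.output Alg.output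
  rw [run_toS A σ 0 A.toS.init]
  rfl

theorem success_toS {n b : ℕ} (α : ℝ) (A : Alg n b) (σ : List (Sym2 (Fin n))) :
    SMG.Success α A.toS σ ↔ Success α A σ := by
  unfold SMG.Success Success
  rw [output_toS]
  exact Iff.rfl

/-- The ratio `α` is achievable: for some constants `K` and `c` and all `n ≥ 2` there is a
randomised one-pass algorithm with at most `K n (log n) ^ c` bits of memory which, on every stream,
outputs with probability at least `2 / 3` a matching with at least `α ν` edges. -/
def Achievable (α : ℝ) : Prop :=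
  ∃ (K : ℝ) (c : ℕ), ∀ n : ℕ, 2 ≤ n → ∃ b : ℕ, (b : ℝ) ≤ K * n * Real.log n ^ c ∧
    ∃ (Ω : Type) (_ : MeasurableSpace Ω) (P : Measure Ω) (_ : IsProbabilityMeasure P)
      (A : Ω → Alg n b), ∀ σ : List (Sym2 (Fin n)), IsStream σ →
        MeasurableSet {ω | Success α (A ω) σ} ∧
          ENNReal.ofReal (2 / 3) ≤ P {ω | Success α (A ω) σ}

/-- The lower bound on the memory, for the algorithms of this file. -/
theorem lower (α δ K : ℝ) (c : ℕ) (hα : 1 / 2 < α) (hδ : 0 < δ) :
    ∀ᶠ n : ℕ in atTop, ∀ b : ℕ, (b : ℝ) ≤ K * n * Real.log n ^ c →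
      ∀ (Ω : Type) [MeasurableSpace Ω] (P : Measure Ω) [IsProbabilityMeasure P]
        (A : Ω → Alg n b),
        (∀ σ, IsStream σ → MeasurableSet {ω | Success α (A ω) σ}) →
        ∃ σ : List (Sym2 (Fin n)), IsStream σ ∧ IsBip σ ∧
          P {ω | Success α (A ω) σ} ≤ ENNReal.ofReal δ := by
  filter_upwards [STG.lower_bound α δ K c hα hδ] with n hn
  intro b hb Ω _ P _ A hA
  obtain ⟨σ, h1, h2, h3⟩ := hn b hb Ω P (fun ω => (A ω).toS) (by
    intro σ hσ
    have h := hA σ hσ
    have he : {ω | SMG.Success α (A ω).toS σ} = {ω | Success α (A ω) σ} := by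
      ext ω
      exact success_toS α (A ω) σ
    rw [he]
    exact h)
  refine ⟨σ, h1, h2, ?_⟩
  have he : {ω | SMG.Success α (A ω).toS σ} = {ω | Success α (A ω) σ} := by
    ext ω
    exact success_toS α (A ω) σ
  rw [← he]
  exact h3

theorem bits (n : ℕ) (hn : 2 ≤ n) :
    ((n * (Nat.log 2 (n + 1) + 1) : ℕ) : ℝ) ≤ 5 * n * Real.log n ^ 1 := by
  have hn' : (2 : ℝ) ≤ n := by exact_mod_cast hn
  have h2 : (0.6931471803 : ℝ) < Real.log 2 := Real.log_two_gt_d9
  have hlog : Real.log 2 ≤ Real.log n := Real.log_le_log (by norm_num) hn'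
  have h1 : (Nat.log 2 (n + 1) : ℝ) * Real.log 2 ≤ 2 * Real.log n := by
    have h3 : ((2 : ℝ) ^ Nat.log 2 (n + 1)) ≤ (n : ℝ) ^ 2 := by
      have h4 : 2 ^ Nat.log 2 (n + 1) ≤ n + 1 := Nat.pow_log_le_self 2 (by omega)
      have h5 : n + 1 ≤ n ^ 2 := by nlinarith
      exact_mod_cast h4.trans h5
    have h6 := Real.log_le_log (by positivity) h3
    rwa [Real.log_pow, Real.log_pow] at h6
  have h3 : (Nat.log 2 (n + 1) : ℝ) + 1 ≤ 5 * Real.log n := by
    by_contra hcon
    push Not at hcon
    have : (5 * Real.log n - 1) * Real.log 2 < Nat.log 2 (n + 1) * Real.log 2 :=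
      mul_lt_mul_of_pos_right (by linarith) (by linarith)
    nlinarith
  push_cast
  rw [pow_one]
  have hn0 : (0 : ℝ) ≤ n := by linarith
  nlinarith

/-- The greedy algorithm. -/
theorem upper : Achievable (1 / 2) := by
  refine ⟨5, 1, fun n hn => ⟨n * (Nat.log 2 (n + 1) + 1), bits n hn, ?_⟩⟩
  obtain ⟨A, hA⟩ := SMG.greedy n
  refine ⟨Unit, inferInstance, Measure.dirac (), inferInstance,
    fun _ => ⟨A.init, A.step, A.out⟩, fun σ hσ => ⟨?_, ?_⟩⟩
  · exact MeasurableSet.of_discrete
  · have h : ∀ ω : Unit, Success (1 / 2) (⟨A.init, A.step, A.out⟩ : Alg n _) σ := fun _ =>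
      (success_toS (1 / 2) (⟨A.init, A.step, A.out⟩ : Alg n _) σ).1 (hA σ hσ)
    have he : {ω : Unit | Success (1 / 2) (⟨A.init, A.step, A.out⟩ : Alg n _) σ} = Set.univ := by
      ext ω
      simpa using h ω
    rw [he, measure_univ]
    rw [ENNReal.ofReal_le_one]
    norm_num

/-- The largest achievable ratio is `1 / 2`. Moreover, for every `α > 1 / 2` and `δ > 0`, every
randomised one-pass algorithm with at most `K n (log n) ^ c` bits of memory has, if `n` is large, on
some bipartite stream a probability of at most `δ` to output a matching with at least `α ν`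
edges. -/
theorem result :
    IsGreatest {α : ℝ | Achievable α} (1 / 2) ∧
    ∀ (α δ K : ℝ) (c : ℕ), 1 / 2 < α → 0 < δ →
      ∀ᶠ n : ℕ in atTop, ∀ b : ℕ, (b : ℝ) ≤ K * n * Real.log n ^ c →
        ∀ (Ω : Type) [MeasurableSpace Ω] (P : Measure Ω) [IsProbabilityMeasure P]
          (A : Ω → Alg n b),
          (∀ σ, IsStream σ → MeasurableSet {ω | Success α (A ω) σ}) →
          ∃ σ : List (Sym2 (Fin n)), IsStream σ ∧ IsBip σ ∧
            P {ω | Success α (A ω) σ} ≤ ENNReal.ofReal δ := by
  refine ⟨⟨upper, ?_⟩, lower⟩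
  rintro α ⟨K, c, hα⟩
  by_contra hcon
  rw [not_le] at hcon
  obtain ⟨n, hn1, hn2⟩ := ((lower α (1 / 3) K c hcon (by norm_num)).and
    (eventually_ge_atTop 2)).exists
  obtain ⟨b, hb, Ω, _, P, _, A, hA⟩ := hα n hn2
  obtain ⟨σ, h1, _, h3⟩ := hn1 b hb Ω P A (fun σ hσ => (hA σ hσ).1)
  have h4 := (hA σ h1).2.trans h3
  rw [ENNReal.ofReal_le_ofReal_iff (by norm_num)] at h4
  norm_num at h4

end Pool.Agent.Results.MP_8d7caf_lc.GreedyOptimal
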